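import Pool.Agent.LibAF11.Final

/-!
# MP_29b22a_nt (Beilinson's conjecture): cycles of all codimensions on products of elliptic curves

Let `Qb` be the field of algebraic numbers. For elliptic curves `E`, `E'` over `Qb` and points `P` of
`E` and `Q` of `E'` let `P × Q = (P, Q) - (P, 0) - (0, Q) + (0, 0)`, a zero-cycle on the surface `E × E'`
in the kernel of the Albanese map. Beilinson's conjecture predicts that it is torsion in the Chow
group `CH_0 (E × E')`.

**1. Groups of infinite rank with this property exist on all elliptic curves.** Let `K` be a number
field, `E₀` an elliptic curve over `K` with a `K`-rational point of order two and `P` in `E₀(K)`. There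
are saturated subgroups `Γ W` of infinite rank of the groups of points of all elliptic curves `W` over
`Qb` (`InfRank`), such that `P × Q` is torsion for all elliptic curves `E`, `E'` over `Qb` and all `P`
in `Γ E`, `Q` in `Γ E'` (`PwC Γ`); the given point is in `Γ E₀`, and for `E` over `K` the group `Γ E` is
stable under the Galois group of `K` and contains, for every `n`, points all of whose non-zero multiples
have degree `> n` over `K` (`Stable`). For the cycles of all dimensions on products of elliptic curves
which are combinations of translates of abelian subvarieties by points in these groups the conclusion
of 2. holds, unconditionally.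

**2. From zero-cycles on surfaces to cycles of all dimensions.** Let `Γ E` be these groups, or any
other choice of a subgroup of the group of points of `E`, for every elliptic curve `E` over `Qb`, with
the property `PwC Γ`. Let `A = W_1 × ... × W_r` and `B = V_1 × ... × V_D` be products
of elliptic curves, `N_j` homomorphisms from `B` to `A` (arbitrary ones: matrices of homomorphisms of
the curves, complex multiplications and isogenies included), `g_j` points of `A` with components in the
groups `Γ W_i` and `m_j` integers. The cycle `N_j_* B + g_j` is a multiple of a translate of an abelian
subvariety of `A`. Let `c = ∑ m_j (N_j_* B + g_j)`, a cycle of dimension `D` on `A`. Then the following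
are equivalent (`ByDivs Γ`):

* for all homomorphisms `f` from `A` to products `A'` of `D + 1` elliptic curves the divisor `f_* c` is
  torsion in `Pic (A') = CH_D (A')`;
* `c` is torsion in the Chow group `CH_D (A)`;
* for all projective `Y` and all prime cycles `Z` on `A × Y`, of any dimension `e`, the cycle `c * Z`
  (the image of `c × Z` under the addition `A × (A × Y) → A × Y`) is torsion in `CH_{e + D} (A × Y)`.

If `c` is homologically trivial and its Abel-Jacobi image is torsion then the same is true for the
divisors `f_* c`, so that they are torsion. So the theorem contains the injectivity of the Abel-Jacobi
map (up to torsion) on the cycles `c`. And if such a cycle is not torsion then it is detected by the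
Néron-Tate height on the Picard variety of a product of `D + 1` elliptic curves.

Given the property `PwC`, the implication from the first to the second condition in 2. could also be
deduced from O'Sullivan's theory of symmetrically distinguished cycles on abelian varieties (2011;
compare Beauville, Deninger-Murre and Kuennemann); the proof given here is elementary. The new content
is 1., the existence of such groups of infinite rank on all elliptic curves, containing a given point
and stable under Galois groups, and the resulting injectivity in all codimensions.

Outline of the proof. For a fixed cycle `Z` and a fixed curve `V` the class of the cycle with the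
generic point `v ξ + T` (`ξ` the generic point of `V`, `v` a vector of homomorphisms, `T` independent of
`ξ`) satisfies the parallelogram law in `v`: the function `x(P) - x(Q)` on `V × V` has zeros at
`P = Q` and `P = -Q`, and double poles at `P = 0` and `Q = 0`; push forward by `v P + w Q + T`. So the
class of `N_* B * Z` is a hermitian function of every column of `N`, invariant under adding a column
to another one. The curves may be replaced by fixed curves in their isogeny classes: homomorphisms
have duals, and the ring of endomorphisms of a curve is an order in `ℚ` or in an imaginary quadratic
field (commutativity by the action on the invariant differential, positivity of the degree, Hurwitz).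
Then `N` is a matrix over such orders, and functions with these properties are reproduced by the kernel
`|det (Mᵀ N)| ^ 2`, and the additive part in `g` by `conj (det (Mᵀ N)) det ((M | z)ᵀ (N | g))`. If the
divisors `f_* c` are torsion then the sums of these numbers vanish: the degree of the zero-cycle
`c · ker Mᵀ` and its sum in the curve `E` do not change under rational equivalence, by Abel's theorem
for curves over function fields (proved by norms, with the theory of ramification), applied to the
generic fibre. For the groups of 1.: `Γ W` is the saturation of the group
generated by the images under algebraic maps of the points of abscissa `t` of all Legendre curves,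
where `t` is the Legendre abscissa of a multiple of `P`, `2`-adically large; the conjugates of `t`
are `t` and `1 - t`, which give the same groups. The 2-adic ramification in towers of Landen
isogenies gives infinite rank and large degrees.
-/

open WeierstrassCurve Pool.Agent.LibBH2 Pool.Agent.LibIG50 Pool.Agent.LibCHd Pool.Agent.LibGG
  Pool.Agent.LibAF11
open scoped Classical

theorem Pool.Agent.Results.MP_29b22a_nt.AllCodimensions.result :
    (∀ (K : Type) [Field K] [NumberField K] [Algebra K Qb] (E₀ : WeierstrassCurve K)
      [E₀.IsElliptic] (T P : E₀.toAffine.Point), T ≠ 0 → 2 • T = 0 →
      ∃ Γ : Grid, PwC Γ ∧ ByDivs Γ ∧ constPt Qb P ∈ Γ (E₀⁄Qb) ∧ InfRank Γ ∧ Stable K Γ) ∧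
    ∀ Γ : Grid, PwC Γ → ByDivs Γ :=
  all_codim'

/-
The claim file of this former hand-in of MP_29b22a_nt (slot given to GrossSchoenInfinite):
Proves: Part of (ii), all odd i; k=Qbar. (1) For E0/K, K number field, with a K-point of order 2, and P in E0(K) there are subgroups G(E) of E(k) for all elliptic E (Grid), saturated, of infinite rank (InfRank), Galois stable, with points all of whose nonzero multiples have degree >n over K, for all n (Stable), P in G(E0), and (P,Q)-(P,0)-(0,Q)+(0,0) torsion in CH_0(ExE') for all E, E', P in G(E), Q in G(E') (PwC). (2) For these and all other G with PwC: A=W1x..xWr, B=V1x..xVD, Wi, Va elliptic; N_j: B->A homomorphisms, g_j in A with components in G(Wi), m_j in Z, c=sum m_j(N_j*B+g_j), a D-cycle on A. Equivalent: (a) for all homomorphisms f: A->A' to products A' of D+1 elliptic curves f_*c is torsion in CH_D(A')=Pic(A'); (b) c is torsion in CH_D(A); (c) for all projective Y, prime e-cycles Z on AxY, c*Z (sum map of A) is torsion in CH_{e+D}(AxY).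
Definitions: Qb: Qbar. constPt: P over Qbar. Hom: homomorphisms. pntH: point N xi+g+u. clsH, dirH: c*Z, f_*c. ptC: point class. IsGen: xi generic in B over L. ByDivs: (2). Prj: closed Y in P^N. FunF d M: f.g., trdeg d. Pnt: M-point. eqs, fld: closure, residue field. cyc u=[M:k(u)]eqs u. Place: trivial on k. RF: residue field. SpR, SpV: value at v. IsDiv: sum ord_v(g)cyc(u(v)).
Relation: Partial. (a) holds if c is homologically trivial with torsion Abel-Jacobi image, so (ii) predicts (b), (c). Given PwC, (a)=>(b) can be deduced from O'Sullivan 2011 (cf. Beauville, Deninger-Murre, Kuennemann); new: (1). Cf. Love, Gazaki-Love.
-/
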