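import Pool.Agent.LibEV91.Z

/-!
# MP_29b22a_nt (Beilinson's conjecture): Gross-Schoen cycles of infinite order

Let `k` be an algebraically closed field of characteristic `0`, `ω` a primitive third root of unity, `n ≥ 2` and
`α ≠ 0`, `α ^ 6 ≠ 1`. Let `C` be the curve `v ^ n (x ^ 3 - 1 / T) = x ^ 3 - T`, `T = α ^ 3` (`cov n ω α`; `a_i = ω ^ i α`,
`b_i = 1 / a_i`; the genus is `2 n - 2`). Up to isomorphism these are the coverings of the line with the group
`ℤ / 3 × ℤ / n` given by `v ^ n (x ^ 3 - L) = x ^ 3 - 1` with `L = T ^ (-2)` different from `0` and `1`.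

The modified diagonal cycle of Gross and Schoen on `C ^ 3`, with the base point `(a_0, 0)`, is homologically trivial. It is
torsion for `n = 2` (hyperelliptic curves) and for `n = 3`. The theorem: let `n ≥ 4` be not a power of `3`.

1. If `n` is even, the cycle has infinite order in `CH_1(C ^ 3)`, for EVERY `T`.
2. If there is a valuation ring `O` of `k` with `3` in its maximal ideal such that `1 / (1 - T ^ 2)` is in `O`, the cycle
   has infinite order. This is the case if `T` is transcendental over `ℚ`, or if `T` is a rational number whose numerator or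
   denominator is divisible by `3`.
-/

namespace Pool.Agent.Results.MP_29b22a_nt.GrossSchoenInfinite

open Pool.Agent.LibCW77

theorem result (k : Type) [Field k] [IsAlgClosed k] [CharZero k] (ω : k) (hω : IsPrimitiveRoot ω 3) (n : ℕ)
    (hn : 4 ≤ n) (hn3 : ∀ j, n ≠ 3 ^ j) (α : k) (h0 : α ≠ 0) (h1 : α ^ 6 ≠ 1) :
    (cov n ω α).Good ∧
    ((Even n ∨ (∃ O : ValuationSubring k, (3 : k)⁻¹ ∉ O ∧ (1 - α ^ 6)⁻¹ ∈ O) ∨ Transcendental ℚ α ∨
        ∃ q : ℚ, α ^ 3 = (q : k) ∧ padicValRat 3 q ≠ 0) →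
      GSIff (cov n ω α) False) := by
  have hc : (cov n ω α).Good := cov_good hω (by omega) h0 h1
  refine ⟨hc, fun h => ⟨genC_exists hc, fun N _ _ x v hg => iff_false_intro ?_⟩⟩
  rcases Nat.even_or_odd n with he | ho
  · exact ev_even hω hn he h0 h1 hg
  have hO : ∃ O : ValuationSubring k, (3 : k)⁻¹ ∉ O ∧ (1 - α ^ 6)⁻¹ ∈ O := by
    rcases h with h | h | h | ⟨q, hq, hv⟩
    · exact absurd h (Nat.not_even_iff_odd.2 ho)
    · exact h
    · obtain ⟨O, h3, h4⟩ := val_tr (T := α ^ 3) (h.pow (by norm_num))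
      refine ⟨O, h3, ?_⟩
      have e : (α ^ 3) ^ 2 = α ^ 6 := by ring
      rwa [e] at h4
    · obtain ⟨O, h3, h4⟩ := val_rat (k := k) hv
      refine ⟨O, h3, ?_⟩
      have e : (q : k) ^ 2 = α ^ 6 := by rw [← hq]; ring
      rwa [e] at h4
  exact ev_odd hω ho hn3 h0 h1 hO hg

end Pool.Agent.Results.MP_29b22a_nt.GrossSchoenInfinite
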